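import Pool.Agent.H366R2.QA.Main5

/-!
The number of the integers up to `x` which reach 1 under the `5x+1` map is at least `x^(η₅ - ε)`,
`η₅ = 0.6509186...`.
-/

set_option autoImplicit false

namespace Pool.Agent.Results.MP_05966f_nt.EtaLowerBound

open Pool.Agent.H366R2.QA

/-- There is a real number `η₅` with `0.6509 < η₅ < 0.65095` and `2^η₅ = 1 + 5^(η₅ - 1)` such that
for every `η < η₅` there is `c > 0` with `N₅(x) ≥ c x^η` for all `x ≥ 1`; in particular the lower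
limit of `log N₅(x) / log x` is at least `η₅`. -/
theorem result :
    ∃ η₅ : ℝ, 0.6509 < η₅ ∧ η₅ < 0.65095 ∧ (2 : ℝ) ^ η₅ = 1 + 5 ^ (η₅ - 1) ∧
      (∀ η : ℝ, η < η₅ → ∃ c : ℝ, 0 < c ∧ ∀ x : ℝ, 1 ≤ x →
        c * x ^ η ≤ ((Set.ncard {n : ℤ | 1 ≤ n ∧ (n : ℝ) ≤ x ∧ ∃ k : ℕ,
          (fun m : ℤ => if m % 2 = 0 then m / 2 else (5 * m + 1) / 2)^[k] n = 1} : ℕ) : ℝ)) ∧
      η₅ ≤ Filter.liminf (fun x : ℝ =>
        Real.log ((Set.ncard {n : ℤ | 1 ≤ n ∧ (n : ℝ) ≤ x ∧ ∃ k : ℕ,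
          (fun m : ℤ => if m % 2 = 0 then m / 2 else (5 * m + 1) / 2)^[k] n = 1} : ℕ) : ℝ)
          / Real.log x) Filter.atTop := by
  obtain ⟨η₅, h1, h2, h3⟩ := exists_eta
  have hpow : ∀ η : ℝ, η < η₅ → ∃ c : ℝ, 0 < c ∧ ∀ x : ℝ, 1 ≤ x →
      c * x ^ η ≤ ((Set.ncard {n : ℤ | 1 ≤ n ∧ (n : ℝ) ≤ x ∧ ∃ k : ℕ,
        (fun m : ℤ => if m % 2 = 0 then m / 2 else (5 * m + 1) / 2)^[k] n = 1} : ℕ) : ℝ) := by
    intro η hη
    obtain ⟨c, hc, h⟩ := five_pos hmain5 h1 h2 h3 hη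
    refine ⟨c, hc, fun x hx => ?_⟩
    have h4 := h 1 (by norm_num) (by norm_num) x (by push_cast; exact hx)
    simpa using h4
  refine ⟨η₅, h1, h2, h3, hpow, ?_⟩
  refine (le_liminf_of_pow ?_ ?_).2
  · intro x hx
    refine le_trans ?_ (ncard_abs_le (by linarith))
    have : {n : ℤ | 1 ≤ n ∧ (n : ℝ) ≤ x ∧ ∃ k : ℕ,
        (fun m : ℤ => if m % 2 = 0 then m / 2 else (5 * m + 1) / 2)^[k] n = 1}
        ⊆ {n : ℤ | |(n : ℝ)| ≤ x} := by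
      intro n hn
      have hn0 : (0 : ℝ) ≤ n := by
        have := hn.1
        exact_mod_cast (by omega : (0 : ℤ) ≤ n)
      show |(n : ℝ)| ≤ x
      rw [abs_of_nonneg hn0]
      exact hn.2.1
    exact_mod_cast Set.ncard_le_ncard this (finite_abs_le x)
  · intro η hη
    obtain ⟨c, hc, h⟩ := hpow η hη
    exact ⟨c, 1, hc, h⟩

end Pool.Agent.Results.MP_05966f_nt.EtaLowerBound
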